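import Pool.Agent.Helper6.CS.Goals1

/-!
# Project CS (MP_81e84b_lc), packet CLS
-/

set_option autoImplicit false

namespace Pool.Agent.Helper15.CS

open Pool.Agent.Helper6.CS

set_option synthInstance.maxSize 1000000000

section

variable {M : Type} [World M]

/-- The new function of words. -/
noncomputable def clsF (b h' : M) (Y g₀ : Wd M) (β : Wd M) : Wd M := by
  classical
  exact if β.len = 0 then Y else
    Y ++ Wd.sg (β.get 0) ++ Wd.sub b (β.get 0) g₀ ++
      apw h' (Wd.of (β.len - 1) (fun j => β.get (1 + j)))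

theorem clsF_int (b h' : M) (Y g₀ : Wd M) : IFn M (clsF b h' Y g₀) := by
  unfold clsF
  infer_instance

theorem clsF_nil (b h' : M) (Y g₀ : Wd M) : clsF b h' Y g₀ (Wd.nil M) = Y := by
  unfold clsF
  rw [if_pos (by simp)]

theorem cls_tail (e : M) (β : Wd M) :
    Wd.of ((Wd.sg e ++ β).len - 1) (fun j => (Wd.sg e ++ β).get (1 + j)) = β := by
  have hl : (Wd.sg e ++ β).len - 1 = β.len := by
    rw [Wd.len_append, Wd.len_sg, add_tsub_cancel_left]
  rw [hl]
  refine Wd.ext' (by rw [Wd.len_of]) fun i hi => ?_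
  rw [Wd.len_of] at hi
  rw [Wd.get_of_lt _ _ hi]
  have h1 : (1 : M) + i = (Wd.sg e).len + i := by rw [Wd.len_sg]
  rw [h1, Wd.get_append_right]

theorem cls_get_zero (e : M) (β : Wd M) : (Wd.sg e ++ β).get 0 = e := by
  rw [Wd.get_append_left _ _ (by rw [Wd.len_sg]; exact zero_lt_one), Wd.get_sg_zero]

theorem clsF_cons (b h' : M) (Y g₀ : Wd M) (e : M) (β : Wd M) :
    clsF b h' Y g₀ (Wd.sg e ++ β) = Y ++ Wd.sg e ++ Wd.sub b e g₀ ++ apw h' β := by
  unfold clsF
  have hne : (Wd.sg e ++ β).len ≠ 0 := by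
    rw [Wd.len_append, Wd.len_sg]
    exact ne_of_gt (lt_of_lt_of_le zero_lt_one (le_add_of_nonneg_right (World.zero_le' _)))
  rw [if_neg hne, cls_get_zero, cls_tail]

/-- A word is empty or begins with a letter. -/
theorem cls_cases {c m : M} {β : Wd M} (hO : Over c β) (hl : β.len ≤ m + 1) :
    β = Wd.nil M ∨ ∃ (e : M) (β' : Wd M), e < c ∧ Over c β' ∧ β'.len ≤ m ∧ β = Wd.sg e ++ β' := by
  by_cases h : β.len = 0
  · exact Or.inl (Wd.eq_nil_of_len h)
  · obtain ⟨β', h1, h2⟩ := Wd.exists_cons h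
    rw [h1, Over.append_iff, Over.sg_iff] at hO
    exact Or.inr ⟨_, β', hO.1, hO.2, by rw [h2] at hl; exact le_of_add_le_add_right hl, h1⟩

theorem cls_over {b : M} {τ : Wd M} (h : Over (b + 1) τ) (hn : ¬ ∃ i, i < τ.len ∧ τ.get i = b) :
    Over b τ := by
  intro i hi
  have h1 := h i hi
  rw [World.lt_succ] at h1
  exact lt_of_le_of_ne h1 fun h2 => hn ⟨i, hi, h2⟩

theorem cls_sub_sub {b c e : M} (g : Wd M) (hg : Over (b + 1) g) (he : e < b + 1) :
    Wd.sub b c (Wd.sub b e g) = Wd.sub b (if e = b then c else e) g := by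
  by_cases h : e = b
  · rw [if_pos h]
    subst h
    congr 1
    refine Wd.ext' (by simp) fun i hi => ?_
    rw [Wd.len_sub] at hi
    rw [Wd.get_sub _ _ _ hi]
    split_ifs with h2
    · exact h2.symm
    · rfl
  · rw [if_neg h]
    apply Wd.sub_of_over
    rw [World.lt_succ] at he
    exact Over.sub (lt_of_le_of_ne he h) hg

end

theorem t_CLS (hNP : G_NP) (hCDF : G_CDF) : G_CLS := by
  intro M _ b p D hD hPS hnot m hCl Λ
  obtain ⟨Y, hYO, hY⟩ := hPS Λ
  obtain ⟨q', hq'⟩ := hNP M b D hD hnot (Λ + Y.len + 1) m (Λ + Y.len + 1)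
  obtain ⟨h', hO', hI', hP', hQ'⟩ := hCl (Λ + Y.len + 1 + q' + 1)
  obtain ⟨g₀, hgO, hgl, hg⟩ := hq' h' hO'
  obtain ⟨h, hh⟩ := (hCDF M b (m + 1)).2 (clsF b h' Y g₀) (clsF_int b h' Y g₀)
  have hsub : ∀ e, e < b → Over b (Wd.sub b e g₀) := fun e he => Over.sub he hgO
  have h_nil : apw h (Wd.nil M) = Y := by
    rw [hh _ (Over.nil b) (by rw [Wd.len_nil]; exact World.zero_le' _), clsF_nil]
  have h_cons : ∀ (e : M) (β : Wd M), e < b → Over b β → β.len ≤ m →
      apw h (Wd.sg e ++ β) = Y ++ Wd.sg e ++ Wd.sub b e g₀ ++ apw h' β := by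
    intro e β he hβ hl
    rw [hh _ (Over.append_iff.2 ⟨Over.sg_iff.2 he, hβ⟩) (by
      rw [Wd.len_append, Wd.len_sg, add_comm]; exact add_le_add_left hl 1), clsF_cons]
  have hb1 : ∀ (g : Wd M) (e e' : M), g.len ≤ Λ →
      (g ++ Y ++ Wd.sg e ++ Wd.sub b e' g₀).len ≤ Λ + Y.len + 1 + q' + 1 := by
    intro g e e' hl
    simp only [Wd.len_append, Wd.len_sg, Wd.len_sub]
    refine le_trans ?_ (le_add_of_nonneg_right zero_le_one)
    gcongr
  have hO1 : ∀ (c : M) (g : Wd M) (e : M), b ≤ c → Over c g → e < b →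
      Over c (g ++ Y ++ Wd.sg e ++ Wd.sub b e g₀) := by
    intro c g e hc hgo he
    simp only [Over.append_iff, Over.sg_iff]
    exact ⟨⟨⟨hgo, hYO.mono hc⟩, lt_of_lt_of_le he hc⟩, (hsub e he).mono hc⟩
  refine ⟨h, ?_, ?_, ?_, ?_⟩
  · intro β hβ hl
    rcases cls_cases hβ hl with rfl | ⟨e, β', he, hβ', hl', rfl⟩
    · rw [h_nil]; exact hYO
    · rw [h_cons e β' he hβ' hl']
      simp only [Over.append_iff, Over.sg_iff]
      exact ⟨⟨⟨hYO, he⟩, hsub e he⟩, hO' β' hβ' hl'⟩
  · intro g β hgo hgl' hβ hl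
    rcases cls_cases hβ hl with rfl | ⟨e, β', he, hβ', hl', rfl⟩
    · rw [h_nil]; exact hY g hgo hgl'
    · obtain ⟨t, ht1, ht2, ht3⟩ := hI' (g ++ Y ++ Wd.sg e ++ Wd.sub b e g₀) β'
        (hO1 b g e le_rfl hgo he) (hb1 g e e hgl') hβ' hl'
      refine ⟨t, ht1, ht2, ?_⟩
      rw [h_cons e β' he hβ' hl']
      simp only [Wd.append_assoc] at ht3 ⊢
      exact ht3
  · rintro α σ τ hα hαl hσ hτ hl ⟨hd1, hd2⟩
    have hlσ : σ.len ≤ m + 1 := le_trans (le_add_of_nonneg_right
      (le_trans (World.zero_le' _) (le_add_of_nonneg_right zero_le_one))) hl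
    rcases cls_cases hσ hlσ with rfl | ⟨e, σ', he, hσ', hl', rfl⟩
    · rw [h_nil] at hd1
      rw [Wd.len_nil, zero_add] at hl
      have hτl : τ.len ≤ m := le_of_add_le_add_right hl
      have hsO : Over b (α ++ Y) := Over.append_iff.2 ⟨hα, hYO⟩
      have hsl : (α ++ Y).len ≤ Λ + Y.len + 1 := by
        rw [Wd.len_append]
        refine le_trans ?_ (le_add_of_nonneg_right zero_le_one)
        gcongr
      have hsl2 : (α ++ Y).len ≤ Λ + Y.len + 1 + q' + 1 := by
        refine le_trans hsl (le_trans (le_add_of_nonneg_right (World.zero_le' q'))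
          (le_add_of_nonneg_right zero_le_one))
      have hg2 : g₀.len ≤ Λ + Y.len + 1 + q' + 1 := by
        refine le_trans hgl (le_trans (le_add_of_nonneg_left (World.zero_le' (Λ + Y.len + 1)))
          (le_add_of_nonneg_right zero_le_one))
      have hd3 : ∀ c, c < b → D (α ++ Y ++ Wd.sg c ++ Wd.sub b c g₀ ++ apw h' (Wd.sub b c τ)) := by
        intro c hc
        have h1 := hd2 c hc
        rw [Wd.nil_append, h_cons c _ hc (Over.sub hc hτ) (by rw [Wd.len_sub]; exact hτl)] at h1
        simp only [Wd.append_assoc] at h1 ⊢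
        exact h1
      by_cases hb : ∃ i, i < τ.len ∧ τ.get i = b
      · exact hQ' (α ++ Y) g₀ τ hsO hd1 hsl2 hgO hg2 hτ hτl hb hd3
      · have hτO := cls_over hτ hb
        refine hg (α ++ Y) τ (Wd.nil M) hsO hd1 hsl hτO hτl (Over.nil _)
          (by rw [Wd.len_nil]; exact World.zero_le' _) ?_
        intro c hc
        have h1 := hd3 c hc
        rw [Wd.sub_of_over hτO] at h1
        rw [Wd.nil_append, Wd.sub_append, Wd.sub_of_over (hO' τ hτO hτl)]
        simp only [Wd.append_assoc] at h1 ⊢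
        exact h1
    · have hlen : σ'.len + (τ.len + 1) ≤ m := by
        rw [Wd.len_append, Wd.len_sg, add_assoc, add_comm 1] at hl
        exact le_of_add_le_add_right hl
      refine hP' (α ++ Y ++ Wd.sg e ++ Wd.sub b e g₀) σ' τ (hO1 b α e le_rfl hα he)
        (hb1 α e e hαl) hσ' hτ hlen ⟨?_, ?_⟩
      · rw [h_cons e σ' he hσ' hl'] at hd1
        simp only [Wd.append_assoc] at hd1 ⊢
        exact hd1
      · intro c hc
        have h1 := hd2 c hc
        have h2 : Wd.sg e ++ σ' ++ Wd.sg c ++ Wd.sub b c τ =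
            Wd.sg e ++ (σ' ++ Wd.sg c ++ Wd.sub b c τ) := by
          simp only [Wd.append_assoc]
        rw [h2, h_cons e _ he] at h1
        · simp only [Wd.append_assoc] at h1 ⊢
          exact h1
        · simp only [Over.append_iff, Over.sg_iff]
          exact ⟨⟨hσ', hc⟩, Over.sub hc hτ⟩
        · simp only [Wd.len_append, Wd.len_sg, Wd.len_sub]
          rw [add_assoc, add_comm 1]
          exact hlen
  · intro s u τ hs hds hsl hu hul hτ hτl hb hall
    rcases cls_cases hτ hτl with rfl | ⟨e, τ', he, hτ', hl', rfl⟩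
    · obtain ⟨i, hi, -⟩ := hb
      rw [Wd.len_nil] at hi
      exact absurd hi (not_lt.2 (World.zero_le' i))
    · have hec : ∀ c, c < b → (if e = b then c else e) < b := by
        intro c hc
        rw [World.lt_succ] at he
        split_ifs with h1
        · exact hc
        · exact lt_of_le_of_ne he h1
      have hall2 : ∀ c, c < b → D (s ++ Wd.sg c ++ Wd.sub b c u ++ Y ++
          Wd.sg (if e = b then c else e) ++ Wd.sub b (if e = b then c else e) g₀ ++
          apw h' (Wd.sub b c τ')) := by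
        intro c hc
        have h1 := hall c hc
        rw [Wd.sub_append, Wd.sub_sg, h_cons _ _ (hec c hc) (Over.sub hc hτ')
          (by rw [Wd.len_sub]; exact hl')] at h1
        simp only [Wd.append_assoc] at h1 ⊢
        exact h1
      have hsl2 : s.len ≤ Λ + Y.len + 1 := by
        refine le_trans hsl (le_trans (le_add_of_nonneg_right (World.zero_le' Y.len))
          (le_add_of_nonneg_right zero_le_one))
      have hsl3 : s.len ≤ Λ + Y.len + 1 + q' + 1 := by
        refine le_trans hsl2 (le_trans (le_add_of_nonneg_right (World.zero_le' q'))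
          (le_add_of_nonneg_right zero_le_one))
      by_cases hb' : ∃ i, i < τ'.len ∧ τ'.get i = b
      · refine hQ' s (u ++ Y ++ Wd.sg e ++ Wd.sub b e g₀) τ' hs hds hsl3 ?_ (hb1 u e e hul) hτ' hl'
          hb' ?_
        · simp only [Over.append_iff, Over.sg_iff]
          refine ⟨⟨⟨hu, hYO.mono (le_add_of_nonneg_right zero_le_one)⟩, he⟩, ?_⟩
          exact Over.sub' he hgO
        · intro c hc
          have h1 := hall2 c hc
          simp only [Wd.sub_append, Wd.sub_sg, cls_sub_sub g₀ hgO he, Wd.sub_of_over hYO]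
          simp only [Wd.append_assoc] at h1 ⊢
          exact h1
      · have hτO := cls_over hτ' hb'
        have heb : e = b := by
          obtain ⟨i, hi, hib⟩ := hb
          rw [Wd.len_append, Wd.len_sg] at hi
          rcases Wd.lt_cases hi with h2 | ⟨j, hj, rfl⟩
          · have h3 : i = 0 := by
              have h4 : i < 0 + 1 := by rwa [zero_add]
              rw [World.lt_succ] at h4
              exact le_antisymm h4 (World.zero_le' _)
            subst h3
            rwa [cls_get_zero] at hib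
          · exfalso
            apply hb'
            refine ⟨j, hj, ?_⟩
            have h1 : (1 : M) + j = (Wd.sg e).len + j := by rw [Wd.len_sg]
            rw [h1, Wd.get_append_right] at hib
            exact hib
        subst heb
        refine hg s τ' (u ++ Y ++ Wd.sg e) hs hds hsl2 hτO hl' ?_ ?_ ?_
        · simp only [Over.append_iff, Over.sg_iff]
          exact ⟨⟨hu, hYO.mono (le_add_of_nonneg_right zero_le_one)⟩, he⟩
        · simp only [Wd.len_append, Wd.len_sg]
          gcongr
        · intro c hc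
          have h1 := hall2 c hc
          rw [if_pos rfl, Wd.sub_of_over hτO] at h1
          simp only [Wd.sub_append, Wd.sub_sg, if_pos rfl, Wd.sub_of_over hYO,
            Wd.sub_of_over (hO' τ' hτO hl')]
          simp only [Wd.append_assoc] at h1 ⊢
          exact h1

end Pool.Agent.Helper15.CS
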