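import Pool.Agent.Helper6.CS.Goals2

/-!
# Project CS (MP_81e84b_lc), packet ED
-/

set_option autoImplicit false

namespace Pool.Agent.Helper15.CS

open Pool.Agent.Helper6.CS

set_option synthInstance.maxSize 1000000000

section

variable {M : Type} [World M]

/-- The property of the next word. -/
def edP (a k : M) (f : Wd M → M) (j : M) (w s : Wd M) : Prop :=
  Over (a + j) s ∧ Dw a k f w j s ∧
    PS (a + (j + 1)) (Dw a k f (w ++ s ++ Wd.sg (a + j)) (j + 1))

theorem edP_int (a k : M) (f : Wd M → M) [IFn M f] :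
    IP M fun p : (M × Wd M) × Wd M => edP a k f p.1.1 p.1.2 p.2 := by
  unfold edP
  infer_instance

theorem edQ_int (a k : M) (f : Wd M → M) [IFn M f] (F : M → Wd M) [IFn M F] :
    IP M fun j : M => VW a j (F j) ∧ PS (a + j) (Dw a k f (F j) j) := by
  infer_instance

end

theorem t_ED (hREC : G_REC) (hEB : G_EB) (hEC : G_EC) : G_ED := by
  intro M _ a k ℓ f hf hfl
  haveI hPint := edP_int a k f
  have hst : IFn M fun p : M × Wd M => p.2 ++ pick M (edP a k f p.1 p.2) ++ Wd.sg (a + p.1) := by
    haveI : IFn M fun p : M × Wd M => pick M (edP a k f p.1 p.2) :=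
      IFn.pick (P := fun p : M × Wd M => edP a k f p.1 p.2)
    infer_instance
  obtain ⟨F, hF, hF0, hFs⟩ := hREC M (Wd.nil M)
    (fun p : M × Wd M => p.2 ++ pick M (edP a k f p.1 p.2) ++ Wd.sg (a + p.1)) hst
  have hFs' : ∀ j, F (j + 1) = F j ++ pick M (edP a k f j (F j)) ++ Wd.sg (a + j) := hFs
  have hPj : ∀ (j : M) (w : Wd M), IP M (edP a k f j w) := by
    intro j w
    exact IP.comp2 (P := fun p : (M × Wd M) × Wd M => edP a k f p.1.1 p.1.2 p.2) hPint
      (f := fun _ : Wd M => (j, w)) (g := fun s : Wd M => s) inferInstance inferInstance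
  have hstep : ∀ j, VW a j (F j) → PS (a + j) (Dw a k f (F j) j) →
      edP a k f j (F j) (pick M (edP a k f j (F j))) := by
    intro j h1 h2
    obtain ⟨s, hs⟩ := hEC M a k ℓ j f (F j) hf hfl h1 h2
    haveI := hPj j (F j)
    exact pick_spec (P := edP a k f j (F j)) ⟨s, hs⟩
  have hall : ∀ j, VW a j (F j) ∧ PS (a + j) (Dw a k f (F j) j) := by
    refine ind (edQ_int a k f F) ?_ ?_
    · rw [hF0]
      refine ⟨⟨Over.nil _, fun i hi => absurd hi (not_lt.2 (World.zero_le' i)), ?_⟩, 0, ?_⟩
      · intro i p hp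
        rw [Wd.len_nil] at hp
        exact absurd hp (not_lt.2 (World.zero_le' p))
      · intro q
        refine ⟨Wd.nil M, Over.nil _, fun g _ _ => ⟨Wd.nil M, Over.nil _,
          (by rw [Wd.len_nil]), ?_⟩⟩
        intro u z _ _ _ h
        exfalso
        have h1 : (0 : M) < u.len + 1 + z.len :=
          lt_of_lt_of_le zero_lt_one (le_trans (le_add_of_nonneg_left (World.zero_le' u.len))
            (le_add_of_nonneg_right (World.zero_le' z.len)))
        rw [h] at h1
        exact lt_irrefl _ h1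
    · rintro n ⟨h1, h2⟩
      have h3 := hstep n h1 h2
      rw [hFs' n]
      exact ⟨(hEB M a n).2.2 _ _ h1 h3.1, h3.2.2⟩
  refine ⟨F, fun j => pick M (edP a k f j (F j)), hF, ?_, hF0, hFs', ?_, ?_⟩
  · haveI : IP M fun p : M × Wd M => edP a k f p.1 (F p.1) p.2 :=
      IP.comp2 (P := fun p : (M × Wd M) × Wd M => edP a k f p.1.1 p.1.2 p.2) hPint
        (f := fun p : M × Wd M => (p.1, F p.1)) (g := fun p : M × Wd M => p.2)
        inferInstance inferInstance
    exact IFn.pick (P := fun j : M => edP a k f j (F j))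
  · exact fun j => (hstep j (hall j).1 (hall j).2).1
  · exact fun j => (hstep j (hall j).1 (hall j).2).2.1

end Pool.Agent.Helper15.CS
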