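import Pool.Agent.Helper65.CS.Goals2

/-!
# Packet CS-INV: the invariant
-/

namespace Pool.Agent.Helper15.CS

open Pool.Agent.Helper65.CS Pool.Agent.Helper78.DT

theorem mem_al {n v : ℕ} {s : List (ℕ × Bool)} :
    v ∈ al n s ↔ v < n ∧ (v, true) ∉ s ∧ (v, false) ∉ s := by
  unfold al
  rw [List.mem_filter, List.mem_range]
  simp

theorem not_mem_of_mem_al {n v : ℕ} {s : List (ℕ × Bool)} (h : v ∈ al n s) (b : Bool) :
    (v, b) ∉ s := by
  cases b
  · exact (mem_al.mp h).2.2
  · exact (mem_al.mp h).2.1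

theorem ovr_append {n : ℕ} {e s : List (ℕ × Bool)} (h : ∀ p ∈ e, p.1 ∈ al n s)
    (x : Fin n → Bool) : ovr (e ++ s) x = ovr s (ovr e x) := by
  funext v
  unfold ovr
  simp only [List.mem_append]
  by_cases h1 : ((v : ℕ), true) ∈ s
  · simp [h1]
  · by_cases h2 : ((v : ℕ), false) ∈ s
    · have h3 : ((v : ℕ), true) ∉ e := fun h4 => not_mem_of_mem_al (h _ h4) false h2
      simp [h1, h2, h3]
    · simp [h1, h2]

theorem inv (hR : RstStmt) : InvStmt := by
  intro n W F t e ht he hal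
  obtain ⟨t1, t2, t3, t4⟩ := ht
  have hen : ∀ p ∈ e, p.1 < n := fun p hp => (mem_al.mp (hal p hp)).1
  refine ⟨?_, ?_, (hR.1 n W e t.2 t3).1, ?_⟩
  · rw [List.map_append, List.nodup_append]
    refine ⟨he, t1, ?_⟩
    intro a ha b hb hab
    rw [List.mem_map] at ha hb
    obtain ⟨p, hp, rfl⟩ := ha
    obtain ⟨q, hq, rfl⟩ := hb
    exact not_mem_of_mem_al (hal p hp) q.2 (by rw [hab]; exact hq)
  · intro p hp
    rcases List.mem_append.mp hp with h | h
    · exact hen p h
    · exact t2 p h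
  · intro x
    show DList.val x (rst e t.2) = DList.val (ovr (e ++ t.1) x) F
    rw [ovr_append hal, hR.2 n e t.2 x he hen, t4]

end Pool.Agent.Helper15.CS
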